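import Mathlib

/-!
# Small balls in the plane from the characteristic function (project UC, helper74: piece FEJ2)
-/

set_option autoImplicit false

open MeasureTheory Set Filter Topology Complex

namespace Pool.Agent.Run7.h141.UC

/-- the kernel -/
noncomputable def K1 (x : ℝ) : ℝ := ∫ ξ in (0 : ℝ)..1, (1 - ξ) * Real.cos (ξ * x)

theorem K1_eq {x : ℝ} (hx : x ≠ 0) : K1 x = (1 - Real.cos x) / x ^ 2 := by
  have hd : ∀ ξ ∈ Set.uIcc (0 : ℝ) 1, HasDerivAt
      (fun ξ : ℝ => (1 - ξ) * Real.sin (ξ * x) / x - Real.cos (ξ * x) / x ^ 2)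
      ((1 - ξ) * Real.cos (ξ * x)) ξ := by
    intro ξ _
    have h1 : HasDerivAt (fun ξ : ℝ => ξ * x) x ξ := by simpa using (hasDerivAt_id ξ).mul_const x
    have h2 : HasDerivAt (fun ξ : ℝ => Real.sin (ξ * x)) (Real.cos (ξ * x) * x) ξ := h1.sin
    have h3 : HasDerivAt (fun ξ : ℝ => Real.cos (ξ * x)) (-Real.sin (ξ * x) * x) ξ := h1.cos
    have h4 : HasDerivAt (fun ξ : ℝ => 1 - ξ) (-1) ξ := (hasDerivAt_id ξ).const_sub 1
    have h5 := ((h4.mul h2).div_const x).sub (h3.div_const (x ^ 2))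
    convert! h5 using 1
    field_simp
    ring
  unfold K1
  rw [intervalIntegral.integral_eq_sub_of_hasDerivAt hd
    (Continuous.intervalIntegrable (by fun_prop) _ _)]
  simp
  ring

theorem K1_nonneg (x : ℝ) : 0 ≤ K1 x := by
  by_cases hx : x = 0
  · subst hx
    unfold K1
    simp only [mul_zero, Real.cos_zero, mul_one]
    apply intervalIntegral.integral_nonneg (by norm_num)
    intro ξ hξ
    linarith [hξ.2]
  · rw [K1_eq hx]
    have := Real.cos_le_one x
    positivity

theorem K1_ge {x : ℝ} (hx : |x| ≤ 1) : 11 / 24 ≤ K1 x := by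
  have h1 : ∫ ξ in (0 : ℝ)..1, (1 - ξ) * (1 - ξ ^ 2 / 2) = 11 / 24 := by
    have hd : ∀ ξ ∈ Set.uIcc (0 : ℝ) 1, HasDerivAt
        (fun ξ : ℝ => ξ - ξ ^ 2 / 2 - ξ ^ 3 / 6 + ξ ^ 4 / 8) ((1 - ξ) * (1 - ξ ^ 2 / 2)) ξ := by
      intro ξ _
      have h := (((hasDerivAt_id ξ).sub ((hasDerivAt_pow 2 ξ).div_const 2)).sub
        ((hasDerivAt_pow 3 ξ).div_const 6)).add ((hasDerivAt_pow 4 ξ).div_const 8)
      convert! h using 1
      push_cast
      ring
    rw [intervalIntegral.integral_eq_sub_of_hasDerivAt hd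
      (Continuous.intervalIntegrable (by fun_prop) _ _)]
    norm_num
  rw [← h1]
  unfold K1
  apply intervalIntegral.integral_mono_on (by norm_num)
    (Continuous.intervalIntegrable (by fun_prop) _ _)
    (Continuous.intervalIntegrable (by fun_prop) _ _)
  intro ξ hξ
  have h2 : 1 - (ξ * x) ^ 2 / 2 ≤ Real.cos (ξ * x) := Real.one_sub_sq_div_two_le_cos
  have h3 : (ξ * x) ^ 2 ≤ ξ ^ 2 := by
    rw [mul_pow]
    have h4 : x ^ 2 ≤ 1 := by
      rw [← sq_abs]
      nlinarith [abs_nonneg x]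
    nlinarith [sq_nonneg ξ]
  have h5 : 0 ≤ 1 - ξ := by linarith [hξ.2]
  apply mul_le_mul_of_nonneg_left _ h5
  linarith

theorem gauss_half {c : ℝ} (hc : 0 < c) :
    ∫ ξ in (0 : ℝ)..1, Real.exp (-(c * ξ ^ 2)) ≤ Real.sqrt (Real.pi / c) / 2 := by
  have h1 : ∫ ξ in Ioi (0 : ℝ), Real.exp (-c * ξ ^ 2) = Real.sqrt (Real.pi / c) / 2 :=
    integral_gaussian_Ioi c
  rw [← h1, intervalIntegral.integral_of_le (by norm_num)]
  have h2 : ∀ ξ : ℝ, Real.exp (-(c * ξ ^ 2)) = Real.exp (-c * ξ ^ 2) := fun ξ => by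
    rw [neg_mul]
  simp only [h2]
  apply setIntegral_mono_set
  · exact (integrable_exp_neg_mul_sq hc).integrableOn
  · exact Eventually.of_forall fun ξ => (Real.exp_pos _).le
  · exact (Ioc_subset_Ioi_self).eventuallyLE

/-- swap of two integrals of a continuous function -/
theorem swap {f : ℝ → ℝ → ℝ} (hf : Continuous (Function.uncurry f)) {a b c d : ℝ} (hab : a ≤ b)
    (hcd : c ≤ d) :
    ∫ x in a..b, ∫ y in c..d, f x y = ∫ y in c..d, ∫ x in a..b, f x y := by
  apply intervalIntegral_intervalIntegral_swap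
  have h1 : IntegrableOn (Function.uncurry f) (Icc a b ×ˢ Icc c d) volume :=
    hf.continuousOn.integrableOn_compact (isCompact_Icc.prod isCompact_Icc)
  refine h1.mono_set (Set.prod_mono ?_ ?_)
  · rw [uIoc_of_le hab]
    exact Ioc_subset_Icc_self
  · rw [uIoc_of_le hcd]
    exact Ioc_subset_Icc_self

theorem param {X : Type} [TopologicalSpace X] [FirstCountableTopology X] [LocallyCompactSpace X]
    {f : X → ℝ → ℝ} (hf : Continuous (Function.uncurry f)) (a b : ℝ) :
    Continuous fun x => ∫ t in a..b, f x t :=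
  intervalIntegral.continuous_parametric_intervalIntegral_of_continuous' hf a b

theorem K1_cont : Continuous K1 := by
  unfold K1
  exact param (f := fun x ξ => (1 - ξ) * Real.cos (ξ * x)) (by fun_prop) 0 1

theorem fubini {p q : ℝ} (hpq : p ≤ q) {w X Y : ℝ → ℝ} (hw : Continuous w) (hX : Continuous X)
    (hY : Continuous Y) :
    ∫ t in p..q, w t * (K1 (X t) * K1 (Y t)) =
      ∫ ξ in (0 : ℝ)..1, (1 - ξ) * ∫ η in (0 : ℝ)..1, (1 - η) *
        ∫ t in p..q, w t * (Real.cos (ξ * X t) * Real.cos (η * Y t)) := by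
  have hKY : Continuous fun t => K1 (Y t) := K1_cont.comp hY
  have h1 : ∀ t, w t * (K1 (X t) * K1 (Y t)) =
      ∫ ξ in (0 : ℝ)..1, (1 - ξ) * (Real.cos (ξ * X t) * (w t * K1 (Y t))) := by
    intro t
    rw [show w t * (K1 (X t) * K1 (Y t)) = K1 (X t) * (w t * K1 (Y t)) by ring]
    conv_lhs => rw [K1]
    rw [← intervalIntegral.integral_mul_const]
    apply intervalIntegral.integral_congr
    intro ξ _
    simp only
    ring
  have h2 : ∫ t in p..q, w t * (K1 (X t) * K1 (Y t)) =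
      ∫ ξ in (0 : ℝ)..1, ∫ t in p..q, (1 - ξ) * (Real.cos (ξ * X t) * (w t * K1 (Y t))) := by
    rw [intervalIntegral.integral_congr (g := fun t => ∫ ξ in (0 : ℝ)..1,
      (1 - ξ) * (Real.cos (ξ * X t) * (w t * K1 (Y t)))) fun t _ => h1 t]
    have hc1 : Continuous (Function.uncurry fun t ξ : ℝ =>
        (1 - ξ) * (Real.cos (ξ * X t) * (w t * K1 (Y t)))) :=
      (continuous_const.sub continuous_snd).mul ((Real.continuous_cos.comp
        (continuous_snd.mul (hX.comp continuous_fst))).mul ((hw.comp continuous_fst).mul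
          (hKY.comp continuous_fst)))
    exact swap hc1 hpq (by norm_num)
  rw [h2]
  apply intervalIntegral.integral_congr
  intro ξ _
  simp only
  rw [intervalIntegral.integral_const_mul]
  congr 1
  have h3 : ∀ t, Real.cos (ξ * X t) * (w t * K1 (Y t)) =
      ∫ η in (0 : ℝ)..1, (1 - η) * (w t * (Real.cos (ξ * X t) * Real.cos (η * Y t))) := by
    intro t
    rw [show Real.cos (ξ * X t) * (w t * K1 (Y t)) = K1 (Y t) * (w t * Real.cos (ξ * X t)) by ring]
    conv_lhs => rw [K1]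
    rw [← intervalIntegral.integral_mul_const]
    apply intervalIntegral.integral_congr
    intro η _
    simp only
    ring
  rw [intervalIntegral.integral_congr (g := fun t => ∫ η in (0 : ℝ)..1,
    (1 - η) * (w t * (Real.cos (ξ * X t) * Real.cos (η * Y t)))) fun t _ => h3 t]
  rw [swap (f := fun t η => (1 - η) * (w t * (Real.cos (ξ * X t) * Real.cos (η * Y t)))) (by
      simp only [Function.uncurry_def]
      fun_prop) hpq (by norm_num)]
  apply intervalIntegral.integral_congr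
  intro η _
  simp only
  rw [intervalIntegral.integral_const_mul]

/-- the two dimensional cosine integral -/
noncomputable def AA (p q : ℝ) (w X Y : ℝ → ℝ) (ξ η : ℝ) : ℝ :=
  ∫ t in p..q, w t * (Real.cos (ξ * X t) * Real.cos (η * Y t))

theorem AA_cont (p q : ℝ) {w X Y : ℝ → ℝ} (hw : Continuous w) (hX : Continuous X)
    (hY : Continuous Y) : Continuous (Function.uncurry (AA p q w X Y)) := by
  have h1 : Continuous (Function.uncurry fun (z : ℝ × ℝ) (t : ℝ) =>
      w t * (Real.cos (z.1 * X t) * Real.cos (z.2 * Y t))) := by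
    simp only [Function.uncurry_def]
    fun_prop
  exact param h1 p q

theorem AA_cont_right (p q : ℝ) {w X Y : ℝ → ℝ} (hw : Continuous w) (hX : Continuous X)
    (hY : Continuous Y) (ξ : ℝ) : Continuous (AA p q w X Y ξ) :=
  (AA_cont p q hw hX hY).comp (g := Function.uncurry (AA p q w X Y))
    (f := fun η : ℝ => (ξ, η)) (continuous_const.prodMk continuous_id)

theorem AA_cont_in (p q : ℝ) {w X Y : ℝ → ℝ} (hw : Continuous w) (hX : Continuous X)
    (hY : Continuous Y) :
    Continuous fun ξ : ℝ => ∫ η in (0 : ℝ)..1, (1 - η) * AA p q w X Y ξ η := by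
  have h1 : Continuous (Function.uncurry fun ξ η : ℝ => (1 - η) * AA p q w X Y ξ η) :=
    (continuous_const.sub continuous_snd).mul (AA_cont p q hw hX hY)
  exact param h1 0 1

/-- the real part of the oscillating integral -/
theorem cos_int {p q K : ℝ} {V ζ : ℂ} {w : ℝ → ℝ} {Z : ℝ → ℂ} (hw : Continuous w)
    (hZ : Continuous Z) :
    |∫ t in p..q, w t * Real.cos (((starRingEnd ℂ) ζ * (Z t - V)).re / K)| ≤
      ‖∫ t in p..q, (w t : ℂ) * cexp (I * ((((starRingEnd ℂ) ζ * Z t).re / K : ℝ) : ℂ))‖ := by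
  set φ : ℝ := ((starRingEnd ℂ) ζ * V).re / K with hφ
  have h1 : ∀ t, w t * Real.cos (((starRingEnd ℂ) ζ * (Z t - V)).re / K) =
      (cexp (-(I * (φ : ℂ))) * ((w t : ℂ) *
        cexp (I * ((((starRingEnd ℂ) ζ * Z t).re / K : ℝ) : ℂ)))).re := by
    intro t
    have h2 : cexp (-(I * (φ : ℂ))) * ((w t : ℂ) *
        cexp (I * ((((starRingEnd ℂ) ζ * Z t).re / K : ℝ) : ℂ))) =
        (w t : ℂ) * cexp ((((((starRingEnd ℂ) ζ * (Z t - V)).re / K : ℝ)) : ℂ) * I) := by
      rw [mul_left_comm, ← Complex.exp_add]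
      congr 2
      rw [hφ, mul_sub, Complex.sub_re]
      push_cast
      ring
    rw [h2, Complex.re_ofReal_mul, Complex.exp_ofReal_mul_I_re]
  have hcont : Continuous fun t => cexp (-(I * (φ : ℂ))) * ((w t : ℂ) *
      cexp (I * ((((starRingEnd ℂ) ζ * Z t).re / K : ℝ) : ℂ))) := by
    refine continuous_const.mul ((Complex.continuous_ofReal.comp hw).mul
      (Complex.continuous_exp.comp (continuous_const.mul (Complex.continuous_ofReal.comp
        ((Complex.continuous_re.comp (continuous_const.mul hZ)).div_const K)))))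
  have h3 : ∫ t in p..q, w t * Real.cos (((starRingEnd ℂ) ζ * (Z t - V)).re / K) =
      (∫ t in p..q, cexp (-(I * (φ : ℂ))) * ((w t : ℂ) *
        cexp (I * ((((starRingEnd ℂ) ζ * Z t).re / K : ℝ) : ℂ)))).re := by
    rw [intervalIntegral.integral_congr fun t _ => h1 t]
    have := intervalIntegral.intervalIntegral_re (𝕜 := ℂ) (μ := volume)
      (hcont.intervalIntegrable p q)
    simpa using this
  rw [h3, intervalIntegral.integral_const_mul]
  refine (Complex.abs_re_le_norm _).trans ?_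
  rw [norm_mul]
  have h4 : ‖cexp (-(I * (φ : ℂ)))‖ = 1 := by
    rw [Complex.norm_exp]
    simp
  rw [h4, one_mul]

/-- the double integral of the bound -/
theorem double {A : ℝ → ℝ → ℝ} {G₁ G₂ c : ℝ} (hc : 0 < c) (hG2 : 0 ≤ G₂)
    (hA : ∀ ξ ∈ Set.Icc (0 : ℝ) 1, ∀ η ∈ Set.Icc (0 : ℝ) 1, A ξ η ≤
        G₁ + G₂ * Real.exp (-(c * ξ ^ 2)) * Real.exp (-(c * η ^ 2)))
    (hAc : ∀ ξ, Continuous (A ξ))
    (hIc : Continuous fun ξ : ℝ => ∫ η in (0 : ℝ)..1, (1 - η) * A ξ η) :
    (∫ ξ in (0 : ℝ)..1, (1 - ξ) * ∫ η in (0 : ℝ)..1, (1 - η) * A ξ η) ≤ G₁ / 4 + G₂ / c := by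
  set g : ℝ := ∫ ξ in (0 : ℝ)..1, Real.exp (-(c * ξ ^ 2)) with hg
  have hg0 : 0 ≤ g := intervalIntegral.integral_nonneg (by norm_num) fun ξ _ => (Real.exp_pos _).le
  have hhalf : ∫ ξ in (0 : ℝ)..1, (1 - ξ) = 1 / 2 := by
    rw [intervalIntegral.integral_sub (by simp) (by simp)]
    simp
    norm_num
  have hin : ∀ ξ ∈ Set.Icc (0 : ℝ) 1, (∫ η in (0 : ℝ)..1, (1 - η) * A ξ η) ≤
        G₁ / 2 + G₂ * Real.exp (-(c * ξ ^ 2)) * g := by
    intro ξ hξ
    have h1 : ∫ η in (0 : ℝ)..1, ((1 - η) * G₁ + G₂ * Real.exp (-(c * ξ ^ 2)) *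
        Real.exp (-(c * η ^ 2))) = G₁ / 2 + G₂ * Real.exp (-(c * ξ ^ 2)) * g := by
      rw [intervalIntegral.integral_add (Continuous.intervalIntegrable (by fun_prop) _ _)
        (Continuous.intervalIntegrable (by fun_prop) _ _), intervalIntegral.integral_mul_const,
        hhalf, intervalIntegral.integral_const_mul]
      ring
    rw [← h1]
    apply intervalIntegral.integral_mono_on (by norm_num)
    · exact ((continuous_const.sub continuous_id).mul (hAc ξ)).intervalIntegrable _ _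
    · exact Continuous.intervalIntegrable (by fun_prop) _ _
    · intro η hη
      have h2 := hA ξ hξ η hη
      have h3 : 0 ≤ 1 - η := by linarith [hη.2]
      have h4 := mul_le_mul_of_nonneg_left h2 h3
      refine h4.trans ?_
      have h5 : 0 ≤ G₂ * Real.exp (-(c * ξ ^ 2)) * Real.exp (-(c * η ^ 2)) := by positivity
      nlinarith [hη.1]
  have hout : (∫ ξ in (0 : ℝ)..1, (1 - ξ) * ∫ η in (0 : ℝ)..1, (1 - η) * A ξ η) ≤
      G₁ / 4 + G₂ * g ^ 2 := by
    have h1 : ∫ ξ in (0 : ℝ)..1, ((1 - ξ) * (G₁ / 2) + G₂ * g * Real.exp (-(c * ξ ^ 2))) =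
        G₁ / 4 + G₂ * g ^ 2 := by
      rw [intervalIntegral.integral_add (Continuous.intervalIntegrable (by fun_prop) _ _)
        (Continuous.intervalIntegrable (by fun_prop) _ _), intervalIntegral.integral_mul_const,
        hhalf, intervalIntegral.integral_const_mul]
      ring
    rw [← h1]
    apply intervalIntegral.integral_mono_on (by norm_num)
    · exact ((continuous_const.sub continuous_id).mul hIc).intervalIntegrable _ _
    · exact Continuous.intervalIntegrable (by fun_prop) _ _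
    · intro ξ hξ
      have h2 := hin ξ hξ
      have h3 : 0 ≤ 1 - ξ := by linarith [hξ.2]
      have h4 := mul_le_mul_of_nonneg_left h2 h3
      refine h4.trans ?_
      have h5 : 0 ≤ G₂ * Real.exp (-(c * ξ ^ 2)) * g := by positivity
      nlinarith [hξ.1]
  have hg2 : g ^ 2 ≤ Real.pi / c / 4 := by
    have h1 : g ≤ Real.sqrt (Real.pi / c) / 2 := gauss_half hc
    have h2 : g ^ 2 ≤ (Real.sqrt (Real.pi / c) / 2) ^ 2 := pow_le_pow_left₀ hg0 h1 2
    rw [div_pow, Real.sq_sqrt (by positivity)] at h2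
    linarith
  have h1 : G₂ * g ^ 2 ≤ G₂ * (Real.pi / c / 4) := mul_le_mul_of_nonneg_left hg2 hG2
  have h2 : G₂ * (Real.pi / c / 4) ≤ G₂ / c := by
    have h3 : Real.pi / c / 4 ≤ 1 / c := by
      rw [div_div, div_le_div_iff₀ (by positivity) hc]
      nlinarith [Real.pi_le_four]
    have h4 := mul_le_mul_of_nonneg_left h3 hG2
    rwa [mul_one_div] at h4
  linarith

/-- small balls in the plane -/
theorem fej2 (p q K G₁ G₂ c : ℝ) (V : ℂ) (w : ℝ → ℝ) (Z : ℝ → ℂ) (hpq : p ≤ q) (hK : 0 < K)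
    (hG1 : 0 ≤ G₁) (hG2 : 0 ≤ G₂) (hc : 0 < c) (hw : Continuous w) (hZ : Continuous Z)
    (hw0 : ∀ t ∈ Set.Icc p q, 0 ≤ w t)
    (hyp : ∀ ξ : ℂ, |ξ.re| ≤ 1 → |ξ.im| ≤ 1 →
      ‖∫ t in p..q, (w t : ℂ) * cexp (I * ((((starRingEnd ℂ) ξ * Z t).re / K : ℝ) : ℂ))‖ ≤
        G₁ + G₂ * Real.exp (-(c * ‖ξ‖ ^ 2))) :
    ∫ t in {t : ℝ | t ∈ Set.Icc p q ∧ ‖Z t - V‖ ≤ K}, w t ≤ 16 * (G₁ + G₂ / c) := by
  set X : ℝ → ℝ := fun t => (Z t - V).re / K with hX
  set Y : ℝ → ℝ := fun t => (Z t - V).im / K with hY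
  have hXc : Continuous X := (Complex.continuous_re.comp (hZ.sub continuous_const)).div_const K
  have hYc : Continuous Y := (Complex.continuous_im.comp (hZ.sub continuous_const)).div_const K
  have hkc : Continuous fun t => w t * (K1 (X t) * K1 (Y t)) :=
    hw.mul ((K1_cont.comp hXc).mul (K1_cont.comp hYc))
  set S : Set ℝ := {t : ℝ | t ∈ Set.Icc p q ∧ ‖Z t - V‖ ≤ K} with hS
  have hSm : MeasurableSet S := by
    have : S = Set.Icc p q ∩ {t | ‖Z t - V‖ ≤ K} := rfl
    rw [this]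
    exact measurableSet_Icc.inter
      (isClosed_le (hZ.sub continuous_const).norm continuous_const).measurableSet
  have hSI : S ⊆ Set.Icc p q := fun t ht => ht.1
  -- the lower bound of the kernel
  have hstep : ∫ t in S, w t ≤ (24 / 11) ^ 2 * ∫ t in p..q, w t * (K1 (X t) * K1 (Y t)) := by
    have h1 : ∫ t in S, w t ≤ ∫ t in S, (24 / 11) ^ 2 * (w t * (K1 (X t) * K1 (Y t))) := by
      apply setIntegral_mono_on
      · exact (hw.continuousOn.integrableOn_compact isCompact_Icc).mono_set hSI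
      · exact ((continuous_const.mul hkc).continuousOn.integrableOn_compact
          isCompact_Icc).mono_set hSI
      · exact hSm
      · intro t ht
        have h2 : |X t| ≤ 1 := by
          rw [hX]
          simp only
          rw [abs_div, abs_of_pos hK, div_le_one hK]
          exact (Complex.abs_re_le_norm _).trans ht.2
        have h3 : |Y t| ≤ 1 := by
          rw [hY]
          simp only
          rw [abs_div, abs_of_pos hK, div_le_one hK]
          exact (Complex.abs_im_le_norm _).trans ht.2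
        have h4 := K1_ge h2
        have h5 := K1_ge h3
        have h6 : (11 / 24) * (11 / 24) ≤ K1 (X t) * K1 (Y t) :=
          mul_le_mul h4 h5 (by norm_num) (K1_nonneg _)
        have h7 := mul_le_mul_of_nonneg_left h6 (hw0 t ht.1)
        nlinarith
    refine h1.trans ?_
    rw [intervalIntegral.integral_of_le hpq, ← integral_Icc_eq_integral_Ioc,
      integral_const_mul]
    refine mul_le_mul_of_nonneg_left ?_ (by norm_num)
    apply setIntegral_mono_set
    · exact hkc.continuousOn.integrableOn_compact isCompact_Icc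
    · rw [EventuallyLE, ae_restrict_iff' measurableSet_Icc]
      exact Eventually.of_forall fun t ht =>
        mul_nonneg (hw0 t ht) (mul_nonneg (K1_nonneg _) (K1_nonneg _))
    · exact hSI.eventuallyLE
  -- the oscillating integrals
  have hA : ∀ ξ ∈ Set.Icc (0 : ℝ) 1, ∀ η ∈ Set.Icc (0 : ℝ) 1, AA p q w X Y ξ η ≤
        G₁ + G₂ * Real.exp (-(c * ξ ^ 2)) * Real.exp (-(c * η ^ 2)) := by
    intro ξ hξ η hη
    have habs : |ξ| ≤ 1 := abs_le.2 ⟨by linarith [hξ.1], hξ.2⟩
    have habs' : |η| ≤ 1 := abs_le.2 ⟨by linarith [hη.1], hη.2⟩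
    have hre : ∀ (s : ℝ) (t : ℝ), ((starRingEnd ℂ) (⟨ξ, s⟩ : ℂ) * (Z t - V)).re / K =
        ξ * X t + s * Y t := by
      intro s t
      rw [hX, hY]
      simp only [Complex.mul_re, Complex.conj_re, Complex.conj_im]
      field_simp
      ring
    have hb : ∀ s : ℝ, |s| ≤ 1 → s ^ 2 = η ^ 2 →
        |∫ t in p..q, w t * Real.cos (ξ * X t + s * Y t)| ≤
          G₁ + G₂ * Real.exp (-(c * ξ ^ 2)) * Real.exp (-(c * η ^ 2)) := by
      intro s hs hs2
      have h1 := cos_int (p := p) (q := q) (K := K) (V := V) (ζ := ⟨ξ, s⟩) hw hZ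
      simp only [hre] at h1
      refine h1.trans ((hyp ⟨ξ, s⟩ habs hs).trans (le_of_eq ?_))
      have h2 : ‖(⟨ξ, s⟩ : ℂ)‖ ^ 2 = ξ ^ 2 + η ^ 2 := by
        rw [Complex.sq_norm, Complex.normSq_mk, ← hs2]
        ring
      rw [h2, mul_assoc, ← Real.exp_add]
      congr 3
      ring
    have hsum : AA p q w X Y ξ η =
        (1 / 2) * ((∫ t in p..q, w t * Real.cos (ξ * X t + η * Y t)) +
          ∫ t in p..q, w t * Real.cos (ξ * X t + -η * Y t)) := by
      unfold AA
      rw [← intervalIntegral.integral_add (Continuous.intervalIntegrable (by fun_prop) _ _)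
        (Continuous.intervalIntegrable (by fun_prop) _ _), ← intervalIntegral.integral_const_mul]
      apply intervalIntegral.integral_congr
      intro t _
      simp only
      rw [Real.cos_add, neg_mul, Real.cos_add, Real.cos_neg, Real.sin_neg]
      ring
    rw [hsum]
    have h1 := (abs_le.1 (hb η habs' rfl)).2
    have h2 := (abs_le.1 (hb (-η) (by rwa [abs_neg]) (by ring))).2
    linarith
  rw [fubini hpq hw hXc hYc] at hstep
  change ∫ t in S, w t ≤ (24 / 11) ^ 2 * ∫ ξ in (0 : ℝ)..1, (1 - ξ) *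
    ∫ η in (0 : ℝ)..1, (1 - η) * AA p q w X Y ξ η at hstep
  refine hstep.trans ?_
  have hout := double hc hG2 hA (fun ξ => AA_cont_right p q hw hXc hYc ξ)
    (AA_cont_in p q hw hXc hYc)
  have h5 : 0 ≤ G₂ / c := by positivity
  nlinarith

end Pool.Agent.Run7.h141.UC
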