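import Pool.Agent.Run7.h74.UC.Iface
import Pool.Agent.Run7.h141.UC.Fej

/-!
# Piece FEJ2 of project UC (helper74)
-/

set_option autoImplicit false

namespace Pool.Agent.Run7.h141.UC

theorem t_FEJ2 : Pool.Agent.Run7.h74.UC.S_FEJ2 := fej2

end Pool.Agent.Run7.h141.UC
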